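import Pool.Agent.H72.LSR.JSRT
import Pool.Agent.H44.KJ.JSTEP
import Pool.Agent.H65.OVN.AllF

/-!
# The lossy step at the top row, without hypotheses
-/

set_option autoImplicit false

namespace Pool.FLF

/-- **JSTT.** -/
theorem jstt_thm {m : ℕ} (hm : 1 ≤ m) : Pool.PB.JSTT m :=
  jstt_of hm (jsrc_of Pool.KJ.jstepr_thm hm) fun K c h₁ x ε hc hh₁ hx hε =>
    Pool.OVN.ovf2_of_ov Pool.OVN.ov m K c h₁ x ε hc hh₁ hx hε

end Pool.FLF
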