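import Pool.Agent.H99.LST.CORT
import Pool.Agent.H72.LSR.JSFR

/-!
# The linear step with an implicit equation: the constants
-/

set_option autoImplicit false

namespace Pool.FLF

open Finset Real
open Pool.Agent.H49.Ent Pool.Agent.H32.Dense Pool.STK Pool.KA Pool.KSAT Pool.K2S Pool.KS3
open Pool.KAL Pool.PB Pool.KST Pool.KA.TRC Pool.K2S.Rows Pool.OVN Pool.KAF
open Pool.KJ hiding Pe

variable {m : ℕ}

/-- The linear step for all good families. -/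
theorem jsfo_of {D u w Dp : ℕ} {C₀ c : ℝ} {Cj Cr Cc K E M : ℕ} {η₁ : ℝ} {κ₀ N₀ m₀ : ℕ}
    (hκ₀ : 1 ≤ κ₀) (hCc : 1 ≤ Cc) (hJ : JSIR m D u w Dp C₀ c Cj Cr Cc K E M η₁ κ₀ N₀ m₀) :
    JSFO m D u w C₀ c Cj Cr (Cc * Cc) K E M η₁ m₀
      (fun _ F i₁ r w P A => ClG F i₁ r Dp w P A) := by
  intro J F i₁ r w' e₀ L' γ δ ε e₁ G₀ Z zx zt zs cz cζ cl' cl₂ G e h mu hm₀ he₀ hmL hCr hE hCj
    hη₁ hη₃ hγ hε hrP hbad hSup hOV hrate
  obtain ⟨B, h1, -, h3⟩ := jsfR h hκ₀ hCc hJ hm₀ he₀ hmL hCr hE hCj hη₁ hη₃ hγ hε hrP hbad hSup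
    hOV hrate
  refine ⟨B, ?_, h3⟩
  have h4 : 0 ≤ (Cc : ℝ) * Cc * Pe F.p B := by
    have := Pe_nonneg F.isLaw B
    positivity
  push_cast
  linarith

end Pool.FLF
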