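import Pool.Agent.H99.LST.JSTT
import Pool.Agent.H72.LSR.JSRC

/-!
# The linear step with an implicit equation for good families, with its constants
-/

set_option autoImplicit false

namespace Pool.FLF

open Pool.KJ hiding Pe

/-- **JSRC** from the linear step with an implicit equation. -/
theorem jsrc_of (hJS : JSTEPRStmt) {m : ℕ} (hm : 1 ≤ m) : JSRC m := by
  intro D u C₀ hC₀
  obtain ⟨Dp, hDp⟩ := jsir_of hJS m D u C₀ hm hC₀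
  refine ⟨Dp, fun c hc hc1 => ?_⟩
  obtain ⟨w₀, hw₀⟩ := hDp c hc hc1
  refine ⟨w₀, fun w hw => ?_⟩
  obtain ⟨Cj, Cr₀, Cc, -, hCc, h⟩ := hw₀ w hw
  refine ⟨Cj, Cr₀, Cc * Cc, fun Cr hCr K E hE => ?_⟩
  obtain ⟨M₀, hM₀⟩ := h Cr hCr K E hE
  refine ⟨M₀, fun M hM => ?_⟩
  obtain ⟨η₁, κ₀, N₀, m₀, hη₁, hκ₀, hJ⟩ := hM₀ M hM
  exact ⟨η₁, m₀, hη₁, jsfo_of hκ₀ hCc hJ⟩

end Pool.FLF
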