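import Pool.Agent.H18.PB.Clg

/-!
# Claims for all large sub-events
-/

set_option autoImplicit false

namespace Pool.PB

open Finset Real
open Pool.Agent.H49.Ent Pool.Agent.H32.Dense Pool.STK Pool.KA Pool.KSAT Pool.K2S

variable {m : ℕ}

/-- **Claims for all large sub-events.** A claim may be used for all sub-events of some cost
`κ > 0`, which is known before the freedoms of the later lists. -/
theorem Clg.subs {S : FCl m} {Φ : Stat m} (hc : Clg S Φ) : ∀ {Ψ : Stat m},
    (∀ κ : ℝ, 0 < κ → Clg S (fun J F A => (∀ B : F.Ω → Prop, Sub B A →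
      Real.exp (-(κ * J)) * Pe F.p A ≤ Pe F.p B → Φ J F B) → Ψ J F A)) → Clg S Ψ := by
  induction hc with
  | base τ hτ J₁ h =>
    intro Ψ hΨ
    refine Clg.mono (J₂ := J₁) ((hΨ (τ / 2) (by positivity)).and (Clg.of (S := S) (τ := τ / 2)
      (by positivity) 0 (Φ := fun J F A => S.St (τ / 2) F A) (fun _ _ _ _ h => h))) ?_
    rintro J hJ F A ⟨h1, h2⟩
    refine h1 fun B hB hP => h J hJ F B ⟨S.mono (by linarith) h2.1, ?_⟩
    refine le_trans ?_ hP
    refine le_trans ?_ (mul_le_mul_of_nonneg_left h2.2 (Real.exp_pos _).le)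
    rw [← Real.exp_add]
    refine Real.exp_le_exp.2 (le_of_eq ?_)
    ring
  | @step Φ L hL ih =>
    intro Ψ hΨ
    refine Clg.step L fun κ hκ => ?_
    refine ih (κ / 2) (by positivity) fun κ' hκ' => ?_
    refine Clg.mono (J₂ := 0) (hΨ (min κ' (κ / 2)) (lt_min hκ' (by positivity))) ?_
    intro J _ F A h1 h2 h3
    have hJ : (0 : ℝ) ≤ J := Nat.cast_nonneg J
    refine h1 fun B hB hP => h2 B hB ?_ fun i => ?_
    · refine le_trans (mul_le_mul_of_nonneg_right (Real.exp_le_exp.2 ?_) (Pe_nonneg F.isLaw A)) hP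
      have : min κ' (κ / 2) * (J : ℝ) ≤ κ' * J := mul_le_mul_of_nonneg_right (min_le_left _ _) hJ
      linarith
    · rcases h3 i with h4 | h4
      · exact Or.inl (L.her J F i A B hB h4)
      · refine Or.inr fun C hC hPC => h4 C (hC.trans hB) ?_
        refine le_trans ?_ hPC
        refine le_trans ?_ (mul_le_mul_of_nonneg_left hP (Real.exp_pos _).le)
        rw [← mul_assoc, ← Real.exp_add]
        refine mul_le_mul_of_nonneg_right (Real.exp_le_exp.2 ?_) (Pe_nonneg F.isLaw A)
        have : min κ' (κ / 2) * (J : ℝ) ≤ κ / 2 * J :=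
          mul_le_mul_of_nonneg_right (min_le_right _ _) hJ
        linarith

end Pool.PB
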